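import Pool.Agent.U562.WV.Stm

/-! Project WV, job KER: the inversion of `ℝ³`. -/

set_option autoImplicit false

open MeasureTheory Set Metric
open scoped ENNReal NNReal FourierTransform RealInnerProductSpace SchwartzMap

namespace Pool.Agent.U685.WV

open Pool.Agent.U562.WV

/-- the inversion -/
noncomputable def J (x : E 3) : E 3 := (‖x‖ ^ 2)⁻¹ • x

lemma J_eq : J = EuclideanGeometry.inversion (0 : E 3) 1 := by
  ext1 x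
  simp [J, EuclideanGeometry.inversion_def, dist_eq_norm]

lemma norm_J (x : E 3) : ‖J x‖ = ‖x‖⁻¹ := by
  unfold J
  rw [norm_smul, norm_inv, norm_pow, norm_norm]
  by_cases h : ‖x‖ = 0
  · simp [h]
  · field_simp

lemma J_J (x : E 3) : J (J x) = x := by
  rw [J_eq]
  exact EuclideanGeometry.inversion_inversion _ one_ne_zero x

lemma J_ne {x : E 3} (hx : x ≠ 0) : J x ≠ 0 := by
  rw [← norm_ne_zero_iff, norm_J]
  exact inv_ne_zero (norm_ne_zero_iff.2 hx)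

lemma ker_eq (g : E 3 → ℂ) (x : E 3) : ker g x = (((‖x‖ ^ 2)⁻¹ : ℝ) : ℂ) * g (J x) := rfl

lemma ker_cc {g : E 3 → ℂ} (hg : Cc g) : Cc (ker g) := by
  obtain ⟨hd, r, R, hr, h0⟩ := hg
  have hR : 0 < max R 1 := lt_of_lt_of_le one_pos (le_max_right _ _)
  have hz : ∀ x : E 3, (‖x‖ ≤ (max R 1)⁻¹ ∨ r⁻¹ ≤ ‖x‖) → ker g x = 0 := by
    intro x hx
    rw [ker_eq]
    by_cases hx0 : x = 0
    · simp [hx0]
    have hxp : 0 < ‖x‖ := norm_pos_iff.2 hx0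
    rw [h0 (J x) ?_, mul_zero]
    rw [norm_J]
    rcases hx with hx | hx
    · right
      have h1 := (le_inv_comm₀ hxp hR).1 hx
      exact (le_max_left _ _).trans h1
    · left
      exact (inv_le_comm₀ hr hxp).1 hx
  refine ⟨?_, (max R 1)⁻¹, r⁻¹, inv_pos.2 hR, hz⟩
  rw [contDiff_iff_contDiffAt]
  intro x
  by_cases hx : x = 0
  · have h1 : ker g =ᶠ[nhds x] fun _ => 0 := by
      have h2 : ball (0 : E 3) (max R 1)⁻¹ ∈ nhds x := by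
        rw [hx]
        exact ball_mem_nhds _ (inv_pos.2 hR)
      filter_upwards [h2] with y hy
      exact hz y (Or.inl (le_of_lt (mem_ball_zero_iff.1 hy)))
    exact contDiffAt_const.congr_of_eventuallyEq h1
  · have hx2 : ‖x‖ ^ 2 ≠ 0 := pow_ne_zero 2 (norm_ne_zero_iff.2 hx)
    have h1 : ContDiffAt ℝ 1 (fun y : E 3 => (‖y‖ ^ 2)⁻¹) x :=
      ((contDiff_norm_sq ℝ).contDiffAt).inv hx2
    have h2 : ContDiffAt ℝ 1 (fun y : E 3 => (((‖y‖ ^ 2)⁻¹ : ℝ) : ℂ)) x :=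
      (Complex.ofRealCLM.contDiff.contDiffAt).comp x h1
    have h3 : ContDiffAt ℝ 1 (fun y : E 3 => J y) x := h1.smul contDiffAt_id
    have h4 : ContDiffAt ℝ 1 (fun y : E 3 => g (J y)) x := hd.contDiffAt.comp x h3
    exact h2.mul h4

lemma J_image : J '' ({0}ᶜ : Set (E 3)) = {0}ᶜ := by
  ext y
  constructor
  · rintro ⟨x, hx, rfl⟩
    exact J_ne hx
  · intro hy
    exact ⟨J y, J_ne hy, J_J y⟩

lemma J_deriv (x : E 3) (hx : x ≠ 0) : HasFDerivAt J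
    (((‖x‖ ^ 2)⁻¹ : ℝ) • ((ℝ ∙ x)ᗮ.reflection : E 3 →L[ℝ] E 3)) x := by
  have h := EuclideanGeometry.hasFDerivAt_inversion (c := (0 : E 3)) (x := x) (R := 1) hx
  rw [← J_eq] at h
  simpa [div_pow, dist_eq_norm] using h

lemma J_det (x : E 3) (hx : x ≠ 0) :
    |(((‖x‖ ^ 2)⁻¹ : ℝ) • ((ℝ ∙ x)ᗮ.reflection : E 3 →L[ℝ] E 3)).det| = ((‖x‖ ^ 2)⁻¹) ^ 3 := by
  have h1 : (((‖x‖ ^ 2)⁻¹ : ℝ) • ((ℝ ∙ x)ᗮ.reflection : E 3 →L[ℝ] E 3)).det =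
      ((‖x‖ ^ 2)⁻¹) ^ 3 * LinearMap.det ((ℝ ∙ x)ᗮ.reflection).toLinearMap := by
    have h2 : (((‖x‖ ^ 2)⁻¹ : ℝ) • ((ℝ ∙ x)ᗮ.reflection : E 3 →L[ℝ] E 3)).det =
        LinearMap.det (((‖x‖ ^ 2)⁻¹ : ℝ) • ((ℝ ∙ x)ᗮ.reflection).toLinearMap) := rfl
    rw [h2, LinearMap.det_smul, finrank_euclideanSpace_fin]
  rw [h1, Submodule.det_reflection, abs_mul, abs_pow, abs_pow, abs_neg, abs_one, one_pow, mul_one,
    abs_of_nonneg (by positivity)]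

lemma ker_lint (g : E 3 → ℂ) :
    ∫⁻ x, ‖ker g x‖ₑ ^ 2 = ∫⁻ y, ‖g y‖ₑ ^ 2 / ‖y‖ₑ ^ 2 := by
  have hm : MeasurableSet ({0}ᶜ : Set (E 3)) := (measurableSet_singleton _).compl
  have hv : (volume : Measure (E 3)).restrict ({0}ᶜ : Set (E 3)) = volume :=
    Measure.restrict_eq_self_of_ae_mem (by
      rw [ae_iff]
      simp)
  have h := lintegral_image_eq_lintegral_abs_det_fderiv_mul (volume : Measure (E 3)) hm
    (f := J) (f' := fun x => (((‖x‖ ^ 2)⁻¹ : ℝ) • ((ℝ ∙ x)ᗮ.reflection : E 3 →L[ℝ] E 3)))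
    (fun x hx => (J_deriv x hx).hasFDerivWithinAt)
    (fun x _ y _ hxy => by rw [← J_J x, ← J_J y, hxy]) (fun y => ‖g y‖ₑ ^ 2 / ‖y‖ₑ ^ 2)
  rw [J_image] at h
  rw [show (∫⁻ x in ({0}ᶜ : Set (E 3)), ‖g x‖ₑ ^ 2 / ‖x‖ₑ ^ 2) = ∫⁻ x, ‖g x‖ₑ ^ 2 / ‖x‖ₑ ^ 2 by rw [hv]] at h
  rw [h]
  have h0 : ∫⁻ x, ‖ker g x‖ₑ ^ 2 = ∫⁻ x in ({0}ᶜ : Set (E 3)), ‖ker g x‖ₑ ^ 2 := by rw [hv]
  rw [h0]
  refine setLIntegral_congr_fun hm fun x hx => ?_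
  have hx0 : x ≠ 0 := hx
  have hxp : 0 < ‖x‖ := norm_pos_iff.2 hx0
  rw [J_det x hx0, ker_eq, enorm_mul, mul_pow]
  have h1 : ‖(((‖x‖ ^ 2)⁻¹ : ℝ) : ℂ)‖ₑ = ENNReal.ofReal ((‖x‖ ^ 2)⁻¹) := by
    rw [← ofReal_norm, Complex.norm_real, Real.norm_of_nonneg (by positivity)]
  have h2 : ‖J x‖ₑ = ENNReal.ofReal (‖x‖⁻¹) := by
    rw [← ofReal_norm, norm_J]
  rw [h1, h2, ENNReal.div_eq_inv_mul, ← mul_assoc]
  congr 1
  rw [← ENNReal.ofReal_pow (by positivity), ← ENNReal.ofReal_pow (by positivity),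
    ← ENNReal.ofReal_inv_of_pos (by positivity), ← ENNReal.ofReal_mul (by positivity)]
  congr 1
  field_simp

theorem t_KER : S_KER := fun g hg => ⟨ker_cc hg, ker_lint g⟩

end Pool.Agent.U685.WV
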